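import Pool.Agent.V11109.Free.VacPure
import Pool.Agent.V11109.Free.Leb

/-!
# `C([0,1])` is not absorbed by infinite reduced free powers in a state preserving way

The free product state of pure states is pure, hence multiplicative on its centralizer. But
`C([0,1])` lies in the centralizer of the free product of the Lebesgue state with any other state.
-/

set_option autoImplicit false

namespace Pool.Agent.Results.MP_f16f70_an.NoStatePreservingIso

open Pool.Agent.V11109.Free Pool.Agent.V11109.Conj Pool.Agent.V11109.Fock Pool.Agent.V11109.PureExt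

/-- There are a separable, simple, purely infinite unital C*-algebra `C` and a state `σ` on it such
that for the reduced free product `(D, ρ)` of countably many copies of `(C, σ)` and the reduced free
product `(E, θ)` of `C([0,1])` with the Lebesgue state and `(D, ρ)` there is no *-isomorphism
`Φ : E → D` with `ρ ∘ Φ = θ`. (These reduced free products exist and the statement holds for all
models of them.) -/
theorem result : ∃ (C : Type) (_ : CStarAlgebra C) (σ : C →ₗ[ℂ] ℂ),
    TopologicalSpace.SeparableSpace C ∧ IsSimpleRing C ∧ IsPurelyInfinite C ∧ IsState σ ∧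
    (∃ (D : Type) (_ : CStarAlgebra D) (ρ : D →ₗ[ℂ] ℂ) (e : ℕ → C →⋆ₐ[ℂ] D),
      IsReducedFreeProd (fun _ => C) (fun _ => σ) ρ e) ∧
    ∀ (D : Type) [CStarAlgebra D] (ρ : D →ₗ[ℂ] ℂ) (e : ℕ → C →⋆ₐ[ℂ] D),
      IsReducedFreeProd (fun _ => C) (fun _ => σ) ρ e →
      (∃ (E : Type) (_ : CStarAlgebra E) (θ : E →ₗ[ℂ] ℂ) (i : C(unitInterval, ℂ) →⋆ₐ[ℂ] E)
        (j : D →⋆ₐ[ℂ] E), IsReducedFreeProd₂ lebL ρ θ i j) ∧
      ∀ (E : Type) [CStarAlgebra E] (θ : E →ₗ[ℂ] ℂ) (i : C(unitInterval, ℂ) →⋆ₐ[ℂ] E)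
        (j : D →⋆ₐ[ℂ] E), IsReducedFreeProd₂ lebL ρ θ i j →
        ¬ ∃ Φ : E ≃⋆ₐ[ℂ] D, ∀ x, ρ (Φ x) = θ x := by
  refine ⟨O ℕ, inferInstance, vacL, separable_O, simple_O, pureInf_O, vacL_state,
    exists_rfp (fun _ : ℕ => O ℕ) (fun _ => vacL) (fun _ => vacL_state), ?_⟩
  intro D _ ρ e h
  refine ⟨exists_rfp₂ lebL_state h.state, ?_⟩
  rintro E _ θ i j hE ⟨Φ, hΦ⟩
  have hp : PureLike vacL := pureLike_of_cuntz dense_mon vacL_state vacL_S
  have hρ : PureLike ρ := pureLike_free h (fun _ => hp)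
  have hb : InCentralizer θ (i coordF) := centralizer_two hE (fun x => by rw [mul_comm])
  refine no_iso h.state hρ hb ?_ Φ hΦ
  rw [← map_star, ← map_mul, hE.left, hE.left]
  exact leb_coord_ne

end Pool.Agent.Results.MP_f16f70_an.NoStatePreservingIso
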